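import Mathlib
import Pool.Agent.N423.HB.K5c

/-!
# Five-connected `K_4`-covered graphs with a dominating clique are rigid in three-space

Every `5`-connected `K_4`-covered graph with a nonempty clique `R` such that every other vertex has
a neighbour in `R` is rigid in `ℝ³`; more generally, it is enough that the vertices of `R` are
pairwise linked and every other vertex is linked to at least one vertex of `R`.

Proof. Let `C` be the closure of `G`, and suppose that it is not complete; let `R` be a maximal
clique of `C` which contains the dominating clique. By the rank formula for closed graphs with a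
dominating clique (`Pool.Agent.N423.HB.nul_hub`), the gain of a vertex `v` (the decrease of the rank
when `v` is removed) is its degree minus the sum of `|X| - 4` over the maximal cliques `X` with at
least five vertices that contain `v`, and twice the rank minus `6 |R| - 12` is at least the sum of
`gain + (number of neighbours in R)` over the vertices outside of `R` plus the sum of
`(|X| - 4) (3 - |X ∩ R|)` over the other maximal cliques `X`. The gain of a vertex outside of `R`
is not four: otherwise its neighbours are a clique and one further vertex `y`, whose edge to `v` is
a bridge and hence an edge of `G`, but then `y` is adjacent to two other neighbours of `v`. The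
deficit of the vertices of gain three in a clique `X` is compensated by the term of `X`, because at
least five vertices of `X` have neighbours outside of `X`.

Paper proof and assembly: helper423. Lean parts: helpers 919 (`Pool.Agent.N423.HB.c1x`), 482
(`Pool.Agent.N423.HB.c2k`), 887 (`Pool.Agent.N423.HB.c3`), 118, 322, and, for
`Pool.Agent.N423.DT.t_k5t`, helpers 233, 360, 578, 803, 222, 401, 519, 232, 499, 787, 441, 286, 51,
879, 221, 935, 697, 495, 273, 492, 596, 368, 27, 55, 559, 50, 407, 433, 654, 723, 475, 768.
-/

set_option autoImplicit false

namespace Pool.Agent.Results.MP_212c18_co.FiveConnectedDominatingClique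

open Pool.Agent.H283R2.DR Pool.Agent.H789R5 Pool.Agent.N423.DE Pool.Agent.N423.HB

/-- **Five-connected `K_4`-covered graphs with a dominating clique are rigid in `ℝ³`.** Let `G` be a
finite graph which stays connected after the removal of any set of fewer than five vertices, and in
which every edge is in a complete graph with four vertices, and let `R` be a nonempty set of
vertices which are pairwise linked in `ℝ³`, such that every other vertex is linked to at least one
vertex of `R` (adjacent pairs are linked; e.g. `R` is a clique such that every other vertex has a
neighbour in `R`). Then `G` is generically rigid in `ℝ³`, and its rank in the generic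
three-dimensional rigidity matroid is `3 |V| - 6`. -/
theorem result (V : Type) [Fintype V] (G : SimpleGraph V) (hG : KConnected 5 G) (hK : K4Cov G)
    (R : Finset V) (hR : R.Nonempty) (hlink : ∀ a ∈ R, ∀ b ∈ R, a ≠ b → Linked 3 G a b)
    (hdom : ∀ v, v ∉ R → ∃ r ∈ R, Linked 3 G v r) :
    GenRigid 3 G ∧ genRank 3 G + 6 = 3 * Fintype.card V := by
  have hV : 3 ≤ Fintype.card V := by
    by_contra hV
    obtain ⟨⟨x, hx⟩⟩ := (hG Finset.univ (by rw [Finset.card_univ]; omega)).nonempty
    exact hx (by simp)
  have h := fiveK c1x c2k c3 V G hV (con5_of hG) hK R hR ⟨hlink, hdom⟩
  refine ⟨h, ?_⟩
  classical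
  obtain ⟨p, hp⟩ := exists_mg V 3
  have h1 := (genRigid_iff hp hV G).1 h
  have h2 := genRank_add hp G
  have h3 := Pool.Agent.N423.DT.mo_cmpR (R := (Finset.univ : Finset V))
    (by rw [Finset.card_univ]; exact hV) hp
  rw [Finset.card_univ] at h3
  have h4 := mo_anti (show G ≤ Pool.Agent.N423.DE.cmp Finset.univ from
    fun a b h => ⟨h.ne, Finset.mem_univ _, Finset.mem_univ _⟩) p
  omega

end Pool.Agent.Results.MP_212c18_co.FiveConnectedDominatingClique
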